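import Pool.Agent.H121.ME.Iface

/-! ME-TOPB: the upper band edge (test functions on far away good boxes). -/

set_option autoImplicit false
set_option linter.unusedSectionVars false

open scoped BigOperators InnerProductSpace Topology ENNReal
open Filter MeasureTheory ProbabilityTheory

namespace Pool.Agent.H410.ME

open Pool.Agent.Y662.TR (LL Cf Mw dv hu lmk lmk_apply ll_sum ll_inner clp)
open Pool.Agent.TH369.AN (Rz)
open Pool.Agent.H987.Z
open Pool.Agent.H121.Z987 (wt HH HH_apply)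
open Pool.Agent.H121.ME

/-! ### independence -/

/-- almost surely one of infinitely many disjoint finite sets of the same size is good -/
theorem good_box {ι : Type} (μ : Measure ℝ) [IsProbabilityMeasure μ] (I : Set ℝ)
    (hI : MeasurableSet I) (hμ : 0 < μ I) (Λ : ℕ → Finset ι)
    (hd : Pairwise fun i j => Disjoint (Λ i) (Λ j)) (m : ℕ) (hm : ∀ j, (Λ j).card ≤ m) :
    ∀ᵐ ω ∂(Measure.infinitePi fun _ : ι => μ), ∃ j, ∀ p ∈ Λ j, ω p ∈ I := by
  classical
  let P : Measure (ι → ℝ) := Measure.infinitePi fun _ : ι => μ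
  let A : ℕ → Set (ι → ℝ) := fun j => Set.pi (Λ j : Set ι) fun _ => I
  have hA : ∀ j, MeasurableSet (A j) := fun j =>
    MeasurableSet.pi (Λ j).countable_toSet fun _ _ => hI
  have hmeas : ∀ s : Finset ι, P (Set.pi (s : Set ι) fun _ => I) = μ I ^ s.card := by
    intro s
    have := Measure.infinitePi_pi (μ := fun _ : ι => μ) (s := s) (t := fun _ => I)
      (fun _ _ => hI)
    rw [Finset.prod_const] at this
    exact this
  have hind : iIndepSet A P := by
    rw [iIndepSet_iff_meas_biInter hA]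
    intro s
    have h1 : (⋂ i ∈ s, A i) = Set.pi ((s.biUnion Λ : Finset ι) : Set ι) fun _ => I := by
      ext ω
      simp only [A, Set.mem_iInter, Set.mem_pi, Finset.mem_coe, Finset.mem_biUnion]
      constructor
      · rintro h p ⟨j, hj, hp⟩
        exact h j hj p hp
      · intro h j hj p hp
        exact h p ⟨j, hj, hp⟩
    rw [h1, hmeas, Finset.card_biUnion (fun i _ j _ hij => hd hij), ← Finset.prod_pow_eq_pow_sum]
    refine Finset.prod_congr rfl fun i _ => ?_
    rw [hmeas]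
  have hsum : ∑' j, P (A j) = ∞ := by
    have h1 : ∀ j, μ I ^ m ≤ P (A j) := by
      intro j
      rw [hmeas]
      exact pow_le_pow_right_of_le_one' prob_le_one (hm j)
    have h2 : ∑' _ : ℕ, μ I ^ m = ∞ :=
      ENNReal.tsum_const_eq_top_of_ne_zero (pow_ne_zero _ hμ.ne')
    refine top_le_iff.1 ?_
    rw [← h2]
    exact ENNReal.tsum_le_tsum h1
  have h3 := measure_limsup_eq_one hA hind hsum
  have h4 : ∀ᵐ ω ∂P, ω ∈ limsup A atTop := by
    rw [ae_iff]
    have hms : MeasurableSet (limsup A atTop) := MeasurableSet.measurableSet_limsup hA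
    have := prob_compl_eq_zero_iff (μ := P) hms
    exact this.2 h3
  filter_upwards [h4] with ω hω
  rw [Filter.mem_limsup_iff_frequently_mem] at hω
  obtain ⟨j, hj⟩ := hω.exists
  exact ⟨j, fun p hp => hj p hp⟩

/-! ### boxes -/

section box

variable {d : ℕ}

/-- the box with the lower corner `a` and side `L` -/
noncomputable def bx (a : Fin d → ℤ) (L : ℕ) : Finset (Fin d → ℤ) :=
  Fintype.piFinset fun i => Finset.Ico (a i) (a i + L)

theorem mem_bx {a : Fin d → ℤ} {L : ℕ} {x : Fin d → ℤ} :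
    x ∈ bx a L ↔ ∀ i, a i ≤ x i ∧ x i < a i + L := by
  unfold bx
  simp [Fintype.mem_piFinset]

theorem card_bx (a : Fin d → ℤ) (L : ℕ) : (bx a L).card = L ^ d := by
  unfold bx
  rw [Fintype.card_piFinset]
  simp

/-- the boundary of a box -/
theorem card_bd (a : Fin d → ℤ) (L : ℕ) (i : Fin d) (t : ℤ) :
    ((bx a L).filter fun x => x i = t).card * L ≤ (bx a L).card := by
  classical
  have h1 : ((bx a L).filter fun x => x i = t) ⊆
      Fintype.piFinset (Function.update (fun i => Finset.Ico (a i) (a i + L)) i {t}) := by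
    intro x hx
    rw [Finset.mem_filter, mem_bx] at hx
    rw [Fintype.mem_piFinset]
    intro k
    by_cases hk : k = i
    · subst hk
      rw [Function.update_self, Finset.mem_singleton]
      exact hx.2
    · rw [Function.update_of_ne hk, Finset.mem_Ico]
      exact hx.1 k
  have h2 := Finset.card_le_card h1
  rw [Fintype.card_piFinset] at h2
  have h3 : ∏ k, (Function.update (fun i => Finset.Ico (a i) (a i + (L : ℤ))) i {t} k).card =
      ∏ k, Function.update (fun i => (Finset.Ico (a i) (a i + (L : ℤ))).card) i 1 k := by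
    refine Finset.prod_congr rfl fun k _ => ?_
    by_cases hk : k = i
    · subst hk
      simp
    · rw [Function.update_of_ne hk, Function.update_of_ne hk]
  rw [h3, Finset.prod_update_of_mem (Finset.mem_univ i), one_mul] at h2
  have h4 : (bx a L).card = L * ∏ k ∈ Finset.univ \ {i}, (Finset.Ico (a k) (a k + (L : ℤ))).card := by
    unfold bx
    rw [Fintype.card_piFinset, ← Finset.mul_prod_erase Finset.univ _ (Finset.mem_univ i),
      Finset.erase_eq]
    congr 1
    simp
  rw [h4, mul_comm]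
  exact Nat.mul_le_mul_left _ h2

theorem step_out {a : Fin d → ℤ} {L : ℕ} {x : Fin d → ℤ} (hx : x ∈ bx a L) (i : Fin d)
    (h : x + Pi.single i 1 ∉ bx a L) : x i = a i + L - 1 := by
  rw [mem_bx] at hx h
  by_contra hne
  refine h fun k => ?_
  have := hx k
  by_cases hk : k = i
  · subst hk
    rw [Pi.add_apply, Pi.single_eq_same]
    omega
  · rw [Pi.add_apply, Pi.single_eq_of_ne hk]
    omega

theorem step_out' {a : Fin d → ℤ} {L : ℕ} {x : Fin d → ℤ} (hx : x ∈ bx a L) (i : Fin d)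
    (h : x - Pi.single i 1 ∉ bx a L) : x i = a i := by
  rw [mem_bx] at hx h
  by_contra hne
  refine h fun k => ?_
  have := hx k
  by_cases hk : k = i
  · subst hk
    rw [Pi.sub_apply, Pi.single_eq_same]
    omega
  · rw [Pi.sub_apply, Pi.single_eq_of_ne hk]
    omega

/-- the sign -/
noncomputable def sg (x : Fin d → ℤ) : ℝ := (-1) ^ (∑ i, x i)

theorem sg_sq (x : Fin d → ℤ) : sg x * sg x = 1 := by
  unfold sg
  rw [← zpow_add₀ (by norm_num), ← two_mul, zpow_mul]
  norm_num

theorem sg_add (x : Fin d → ℤ) (i : Fin d) : sg (x + Pi.single i 1) = -sg x := by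
  unfold sg
  have : ∑ k, (x + Pi.single i 1 : Fin d → ℤ) k = (∑ k, x k) + 1 := by
    simp only [Pi.add_apply, Finset.sum_add_distrib, Finset.sum_pi_single', Finset.mem_univ,
      if_true]
  rw [this, zpow_add_one₀ (by norm_num)]
  ring

theorem sg_sub (x : Fin d → ℤ) (i : Fin d) : sg (x - Pi.single i 1) = -sg x := by
  have := sg_add (x - Pi.single i 1) i
  rw [sub_add_cancel] at this
  linarith

end box

/-! ### the test function -/

section main

variable {d : ℕ} {F : Type} [Group F]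

theorem tf_sum (Λ : Finset ((Fin d → ℤ) × F)) [DecidablePred fun p => p ∈ Λ] :
    Summable fun p : (Fin d → ℤ) × F => ‖(if p ∈ Λ then ((sg p.1 : ℝ) : ℂ) else 0)‖ ^ 2 := by
  refine summable_of_ne_finset_zero (s := Λ) fun p hp => ?_
  rw [if_neg hp, norm_zero, zero_pow two_ne_zero]

open Classical in
/-- the test function -/
noncomputable def tf (Λ : Finset ((Fin d → ℤ) × F)) : LL ((Fin d → ℤ) × F) :=
  lmk (fun p => if p ∈ Λ then ((sg p.1 : ℝ) : ℂ) else 0) (tf_sum Λ)

open Classical in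
theorem tf_apply (Λ : Finset ((Fin d → ℤ) × F)) (p : (Fin d → ℤ) × F) :
    tf Λ p = if p ∈ Λ then ((sg p.1 : ℝ) : ℂ) else 0 := rfl

theorem sg_abs (x : Fin d → ℤ) : |sg x| ^ 2 = 1 := by
  rw [sq_abs, sq, sg_sq]

theorem tf_norm (Λ : Finset ((Fin d → ℤ) × F)) : ‖tf Λ‖ ^ 2 = Λ.card := by
  classical
  have h1 := ll_sum (tf Λ)
  have h2 : HasSum (fun p => ‖tf Λ p‖ ^ 2) (∑ p ∈ Λ, ‖tf Λ p‖ ^ 2) :=
    hasSum_sum_of_ne_finset_zero fun p hp => by
      rw [tf_apply, if_neg hp, norm_zero, zero_pow two_ne_zero]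
  rw [h1.unique h2]
  have h3 : ∀ p ∈ Λ, ‖tf Λ p‖ ^ 2 = 1 := by
    intro p hp
    rw [tf_apply, if_pos hp, Complex.norm_real, Real.norm_eq_abs, sg_abs]
  rw [Finset.sum_congr rfl h3]
  simp

theorem tf_inner (Λ : Finset ((Fin d → ℤ) × F)) (v : LL ((Fin d → ℤ) × F)) :
    ⟪tf Λ, v⟫_ℂ = ∑ p ∈ Λ, ((sg p.1 : ℝ) : ℂ) * v p := by
  classical
  have h1 := ll_inner (tf Λ) v
  have h2 : HasSum (fun p => (starRingEnd ℂ) (tf Λ p) * v p)
      (∑ p ∈ Λ, (starRingEnd ℂ) (tf Λ p) * v p) :=
    hasSum_sum_of_ne_finset_zero fun p hp => by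
      rw [tf_apply, if_neg hp, map_zero, zero_mul]
  rw [h1.unique h2]
  refine Finset.sum_congr rfl fun p hp => ?_
  rw [tf_apply, if_pos hp, Complex.conj_ofReal]

open Classical in
/-- the kinetic energy of the test function -/
theorem tf_kin (φ : Multiplicative (Fin d → ℤ) →* MulAut F) (c : F → ℝ)
    (K : LL ((Fin d → ℤ) × F) →L[ℂ] LL ((Fin d → ℤ) × F))
    (hK : ∀ (u : LL ((Fin d → ℤ) × F)) (x : Fin d → ℤ) (f : F),
      K u (x, f) = -∑ i : Fin d, ((u (x + Pi.single i 1, f) - u (x, f)) +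
          (u (x - Pi.single i 1, f) - u (x, f))) +
        ∑' q : F, ((c q : ℝ) : ℂ) * u (x, f * φ (Multiplicative.ofAdd x) q))
    (B : Finset (Fin d → ℤ)) (F0 : Finset F) (H : Subgroup F) (hH : ∀ f, f ∈ F0 ↔ f ∈ H)
    (x : Fin d → ℤ) (hx : x ∈ B) (f : F) (hf : f ∈ F0) :
    ((sg x : ℝ) : ℂ) * K (tf (B ×ˢ F0)) (x, f) =
      (((∑ i : Fin d, (2 + (if x + Pi.single i 1 ∈ B then 1 else 0) +
        (if x - Pi.single i 1 ∈ B then 1 else 0) : ℝ)) +
        ∑' q : F, (if φ (Multiplicative.ofAdd x) q ∈ H then c q else 0) : ℝ) : ℂ) := by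
  have hs : ((sg x : ℝ) : ℂ) * ((sg x : ℝ) : ℂ) = 1 := by
    rw [← Complex.ofReal_mul, sg_sq, Complex.ofReal_one]
  rw [hK, mul_add]
  have h1 : ∀ y, tf (B ×ˢ F0) (y, f) = if y ∈ B then ((sg y : ℝ) : ℂ) else 0 := by
    intro y
    rw [tf_apply]
    by_cases hy : y ∈ B
    · rw [if_pos hy, if_pos (Finset.mem_product.2 ⟨hy, hf⟩)]
    · rw [if_neg hy, if_neg (fun h => hy (Finset.mem_product.1 h).1)]
  have h2 : ∀ q : F, tf (B ×ˢ F0) (x, f * φ (Multiplicative.ofAdd x) q) =
      if φ (Multiplicative.ofAdd x) q ∈ H then ((sg x : ℝ) : ℂ) else 0 := by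
    intro q
    rw [tf_apply]
    have h3 : ((x, f * φ (Multiplicative.ofAdd x) q) : (Fin d → ℤ) × F) ∈ B ×ˢ F0 ↔
        φ (Multiplicative.ofAdd x) q ∈ H := by
      rw [Finset.mem_product, hH]
      constructor
      · rintro ⟨_, h⟩
        exact (H.mul_mem_cancel_left ((hH f).1 hf)).1 h
      · intro h
        exact ⟨hx, H.mul_mem ((hH f).1 hf) h⟩
    simp only [h3]
  have h4 : ((sg x : ℝ) : ℂ) * ∑' q : F, ((c q : ℝ) : ℂ) *
      tf (B ×ˢ F0) (x, f * φ (Multiplicative.ofAdd x) q) =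
      ((∑' q : F, (if φ (Multiplicative.ofAdd x) q ∈ H then c q else 0) : ℝ) : ℂ) := by
    rw [← tsum_mul_left, Complex.ofReal_tsum]
    refine tsum_congr fun q => ?_
    rw [h2]
    by_cases hq : φ (Multiplicative.ofAdd x) q ∈ H
    · rw [if_pos hq, if_pos hq, mul_left_comm, hs, mul_one]
    · rw [if_neg hq, if_neg hq, mul_zero, mul_zero, Complex.ofReal_zero]
  rw [h4, Complex.ofReal_add]
  congr 1
  rw [mul_neg, Finset.mul_sum, ← Finset.sum_neg_distrib, Complex.ofReal_sum]
  refine Finset.sum_congr rfl fun i _ => ?_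
  rw [h1, h1, h1, if_pos hx, sg_add, sg_sub]
  by_cases ha : x + Pi.single i 1 ∈ B <;> by_cases hb : x - Pi.single i 1 ∈ B
  · rw [if_pos ha, if_pos hb, if_pos ha, if_pos hb]
    push_cast
    linear_combination 4 * hs
  · rw [if_pos ha, if_neg hb, if_pos ha, if_neg hb]
    push_cast
    linear_combination 3 * hs
  · rw [if_neg ha, if_pos hb, if_neg ha, if_pos hb]
    push_cast
    linear_combination 3 * hs
  · rw [if_neg ha, if_neg hb, if_neg ha, if_neg hb]
    push_cast
    linear_combination 2 * hs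

open Classical in
/-- the sum over a box of the number of neighbours -/
theorem nb_sum (a : Fin d → ℤ) (L : ℕ) (hL : 0 < L) :
    ((bx a L).card : ℝ) * (4 * d - 2 * d / L) ≤ ∑ x ∈ bx a L, ∑ i : Fin d,
      (2 + (if x + Pi.single i 1 ∈ bx a L then 1 else 0) +
        (if x - Pi.single i 1 ∈ bx a L then 1 else 0) : ℝ) := by
  rw [Finset.sum_comm]
  have hL' : (0 : ℝ) < L := by exact_mod_cast hL
  have h1 : ∀ i : Fin d, ((bx a L).card : ℝ) * (4 - 2 / L) ≤ ∑ x ∈ bx a L,
      (2 + (if x + Pi.single i 1 ∈ bx a L then 1 else 0) +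
        (if x - Pi.single i 1 ∈ bx a L then 1 else 0) : ℝ) := by
    intro i
    have h2 : ∀ x ∈ bx a L, (4 : ℝ) - (if x i = a i + L - 1 then 1 else 0) -
        (if x i = a i then 1 else 0) ≤ 2 + (if x + Pi.single i 1 ∈ bx a L then 1 else 0) +
        (if x - Pi.single i 1 ∈ bx a L then 1 else 0) := by
      intro x hx
      have h3 : (1 : ℝ) - (if x i = a i + L - 1 then 1 else 0) ≤
          (if x + Pi.single i 1 ∈ bx a L then 1 else 0) := by
        by_cases h : x + Pi.single i 1 ∈ bx a L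
        · rw [if_pos h]
          split_ifs <;> norm_num
        · rw [if_neg h, if_pos (step_out hx i h)]
          norm_num
      have h4 : (1 : ℝ) - (if x i = a i then 1 else 0) ≤
          (if x - Pi.single i 1 ∈ bx a L then 1 else 0) := by
        by_cases h : x - Pi.single i 1 ∈ bx a L
        · rw [if_pos h]
          split_ifs <;> norm_num
        · rw [if_neg h, if_pos (step_out' hx i h)]
          norm_num
      linarith
    refine le_trans ?_ (Finset.sum_le_sum h2)
    rw [Finset.sum_sub_distrib, Finset.sum_sub_distrib, Finset.sum_const, nsmul_eq_mul,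
      ← Finset.sum_filter, ← Finset.sum_filter, Finset.sum_const, Finset.sum_const,
      nsmul_eq_mul, nsmul_eq_mul, mul_one, mul_one]
    have h5 : (((bx a L).filter fun x => x i = a i + L - 1).card : ℝ) ≤ (bx a L).card / L := by
      rw [le_div_iff₀ hL']
      exact_mod_cast card_bd a L i (a i + L - 1)
    have h6 : (((bx a L).filter fun x => x i = a i).card : ℝ) ≤ (bx a L).card / L := by
      rw [le_div_iff₀ hL']
      exact_mod_cast card_bd a L i (a i)
    have h7 : ((bx a L).card : ℝ) * (4 - 2 / L) =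
        (bx a L).card * 4 - (bx a L).card / L - (bx a L).card / L := by
      field_simp
      ring
    rw [h7]
    linarith
  refine le_trans (le_of_eq ?_) (Finset.sum_le_sum fun i _ => h1 i)
  rw [Finset.sum_const, nsmul_eq_mul, Finset.card_univ, Fintype.card_fin]
  ring

theorem clp_ge {lam κ v : ℝ} (hl : 0 < lam) (hκ : 0 < κ) (hv : 1 - κ < v) :
    lam * (1 - κ) ≤ clp lam (lam * v) := by
  unfold clp
  rw [abs_of_pos hl]
  refine le_max_of_le_right (le_min ?_ ?_)
  · nlinarith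
  · exact mul_le_mul_of_nonneg_left hv.le hl.le

theorem topB : S_topB := by
  classical
  intro d F _ _ φ c K hd hc hcs hfin hφ hK μ _ hμ1 hμ lam hlam e0 he0
  -- the parameters
  obtain ⟨g, hg⟩ : ∃ g, g = 4 * (d : ℝ) + ∑' q, c q + lam - e0 := ⟨_, rfl⟩
  have hg0 : 0 < g := by rw [hg]; linarith
  obtain ⟨κ, hκ⟩ : ∃ κ, κ = g / (4 * (1 + lam)) := ⟨_, rfl⟩
  have hκ0 : 0 < κ := by rw [hκ]; positivity
  have hκ1 : κ * (1 + lam) = g / 4 := by
    rw [hκ]
    field_simp
  obtain ⟨L, hL⟩ := exists_nat_gt (4 * (d : ℝ) / g)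
  have hL0 : (0 : ℝ) < L := lt_of_le_of_lt (by positivity) hL
  have hL1 : 0 < L := by exact_mod_cast hL0
  have hL2 : 2 * (d : ℝ) / L < g / 2 := by
    rw [div_lt_iff₀ hg0] at hL
    rw [div_lt_iff₀ hL0]
    linarith
  -- the finite group
  obtain ⟨S, hS⟩ : ∃ S : Finset F, ∑' q, c q - κ < ∑ q ∈ S, c q := by
    have h : Tendsto (fun s : Finset F => ∑ q ∈ s, c q) atTop (𝓝 (∑' q, c q)) := hcs.hasSum
    exact (h.eventually (lt_mem_nhds (show ∑' q, c q - κ < ∑' q, c q by linarith))).exists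
  have hR : (⋃ q ∈ S, Set.range fun x => φ x q).Finite :=
    S.finite_toSet.biUnion fun q _ => hφ q
  obtain ⟨R, hRe⟩ : ∃ R : Finset F, (R : Set F) = ⋃ q ∈ S, Set.range fun x => φ x q :=
    ⟨hR.toFinset, hR.coe_toFinset⟩
  obtain ⟨H, hH⟩ : ∃ H, H = Subgroup.closure (R : Set F) := ⟨_, rfl⟩
  have hHf : (H : Set F).Finite := by
    rw [hH]
    exact hfin R
  obtain ⟨F0, hF0⟩ : ∃ F0 : Finset F, ∀ f, f ∈ F0 ↔ f ∈ H :=
    ⟨hHf.toFinset, fun f => by rw [Set.Finite.mem_toFinset]; rfl⟩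
  have hSH : ∀ q ∈ S, ∀ x, φ x q ∈ H := by
    intro q hq x
    rw [hH]
    refine Subgroup.subset_closure ?_
    rw [hRe]
    exact Set.mem_biUnion hq ⟨x, rfl⟩
  -- the boxes
  let i0 : Fin d := ⟨0, hd⟩
  let a : ℕ → Fin d → ℤ := fun j => fun i => if i = i0 then (j : ℤ) * L else 0
  let Λ : ℕ → Finset ((Fin d → ℤ) × F) := fun j => bx (a j) L ×ˢ F0
  have hdis : Pairwise fun i j => Disjoint (Λ i) (Λ j) := by
    intro j j' hjj
    rw [Finset.disjoint_left]
    rintro ⟨x, f⟩ h1 h2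
    have h3 := mem_bx.1 (Finset.mem_product.1 h1).1 i0
    have h4 := mem_bx.1 (Finset.mem_product.1 h2).1 i0
    simp only [a, if_true] at h3 h4
    have h5 : (j : ℤ) < j' + 1 := by
      by_contra h
      push Not at h
      nlinarith
    have h6 : (j' : ℤ) < j + 1 := by
      by_contra h
      push Not at h
      nlinarith
    exact hjj (by omega)
  have hcard : ∀ j, (Λ j).card ≤ L ^ d * F0.card := by
    intro j
    simp only [Λ]
    rw [Finset.card_product, card_bx]
  have hgood := good_box μ (Set.Ioi (1 - κ)) measurableSet_Ioi (hμ κ hκ0) Λ hdis _ hcard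
  filter_upwards [hgood] with ω hω
  obtain ⟨j, hj⟩ := hω
  refine ⟨tf (Λ j), ?_⟩
  rw [tf_norm, tf_inner]
  have h1 : ∀ p ∈ Λ j, (((sg p.1 : ℝ) : ℂ) * HH K lam ω (tf (Λ j)) p).re =
      (∑ i : Fin d, (2 + (if p.1 + Pi.single i 1 ∈ bx (a j) L then 1 else 0) +
        (if p.1 - Pi.single i 1 ∈ bx (a j) L then 1 else 0) : ℝ)) +
        (∑' q : F, (if φ (Multiplicative.ofAdd p.1) q ∈ H then c q else 0)) +
        clp lam (lam * ω p) := by
    rintro ⟨x, f⟩ hp
    obtain ⟨hx, hf⟩ := Finset.mem_product.1 hp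
    rw [HH_apply, mul_add, tf_kin φ c K hK (bx (a j) L) F0 H hF0 x hx f hf, tf_apply, if_pos hp]
    have h2 : ((sg x : ℝ) : ℂ) * (((clp lam (lam * ω (x, f)) : ℝ) : ℂ) * ((sg x : ℝ) : ℂ)) =
        ((clp lam (lam * ω (x, f)) : ℝ) : ℂ) := by
      have hs : ((sg x : ℝ) : ℂ) * ((sg x : ℝ) : ℂ) = 1 := by
        rw [← Complex.ofReal_mul, sg_sq, Complex.ofReal_one]
      linear_combination ((clp lam (lam * ω (x, f)) : ℝ) : ℂ) * hs
    rw [h2, ← Complex.ofReal_add, Complex.ofReal_re]
  rw [Complex.re_sum, Finset.sum_congr rfl h1]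
  have h3 : ∀ p ∈ Λ j, (∑ i : Fin d, (2 + (if p.1 + Pi.single i 1 ∈ bx (a j) L then 1 else 0) +
        (if p.1 - Pi.single i 1 ∈ bx (a j) L then 1 else 0) : ℝ)) +
        ((∑' q, c q - κ) + lam * (1 - κ)) ≤
      (∑ i : Fin d, (2 + (if p.1 + Pi.single i 1 ∈ bx (a j) L then 1 else 0) +
        (if p.1 - Pi.single i 1 ∈ bx (a j) L then 1 else 0) : ℝ)) +
        (∑' q : F, (if φ (Multiplicative.ofAdd p.1) q ∈ H then c q else 0)) +
        clp lam (lam * ω p) := by
    intro p hp
    have h4 := clp_ge hlam hκ0 (hj p hp)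
    have h5 : ∑' q, c q - κ ≤ ∑' q : F, (if φ (Multiplicative.ofAdd p.1) q ∈ H then c q else 0) := by
      have h6 : Summable fun q : F => if φ (Multiplicative.ofAdd p.1) q ∈ H then c q else 0 := by
        refine Summable.of_nonneg_of_le (fun q => ?_) (fun q => ?_) hcs
        · split_ifs
          · exact hc q
          · exact le_rfl
        · split_ifs
          · exact le_rfl
          · exact hc q
      refine hS.le.trans ?_
      have h7 := h6.sum_le_tsum S fun q _ => by
        split_ifs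
        · exact hc q
        · exact le_rfl
      refine le_trans (Finset.sum_le_sum fun q hq => ?_) h7
      rw [if_pos (hSH q hq _)]
    linarith
  refine lt_of_lt_of_le ?_ (Finset.sum_le_sum h3)
  rw [Finset.sum_add_distrib, Finset.sum_const, nsmul_eq_mul]
  have h8 : ∑ p ∈ Λ j, (∑ i : Fin d, (2 + (if p.1 + Pi.single i 1 ∈ bx (a j) L then 1 else 0) +
        (if p.1 - Pi.single i 1 ∈ bx (a j) L then 1 else 0) : ℝ)) =
      F0.card * ∑ x ∈ bx (a j) L, ∑ i : Fin d,
        (2 + (if x + Pi.single i 1 ∈ bx (a j) L then 1 else 0) +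
        (if x - Pi.single i 1 ∈ bx (a j) L then 1 else 0) : ℝ) := by
    simp only [Λ]
    rw [Finset.sum_product, Finset.mul_sum]
    refine Finset.sum_congr rfl fun x _ => ?_
    refine (Finset.sum_congr rfl (g := fun _ => ∑ i : Fin d,
      (2 + (if x + Pi.single i 1 ∈ bx (a j) L then 1 else 0) +
        (if x - Pi.single i 1 ∈ bx (a j) L then 1 else 0) : ℝ)) fun y _ => rfl).trans ?_
    rw [Finset.sum_const, nsmul_eq_mul]
  rw [h8]
  have h9 := nb_sum (a j) L hL1
  have hF1 : 0 < F0.card := Finset.card_pos.2 ⟨1, (hF0 1).2 H.one_mem⟩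
  have hb1 : 0 < (bx (a j) L).card := by
    rw [card_bx]
    positivity
  have hN : ((Λ j).card : ℝ) = F0.card * (bx (a j) L).card := by
    simp only [Λ]
    rw [Finset.card_product]
    push_cast
    ring
  have hF1' : (0 : ℝ) < F0.card := by exact_mod_cast hF1
  have hb1' : (0 : ℝ) < (bx (a j) L).card := by exact_mod_cast hb1
  have h10 : (F0.card : ℝ) * ((bx (a j) L).card * (4 * d - 2 * d / L)) ≤
      F0.card * ∑ x ∈ bx (a j) L, ∑ i : Fin d,
        (2 + (if x + Pi.single i 1 ∈ bx (a j) L then 1 else 0) +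
        (if x - Pi.single i 1 ∈ bx (a j) L then 1 else 0) : ℝ) :=
    mul_le_mul_of_nonneg_left h9 hF1'.le
  refine lt_of_lt_of_le ?_ (add_le_add_left h10 _)
  rw [hN]
  have h11 : e0 < (4 * d - 2 * d / L) + ((∑' q, c q - κ) + lam * (1 - κ)) := by
    have : κ + lam * κ = g / 4 := by rw [← hκ1]; ring
    have h12 : e0 = 4 * (d : ℝ) + ∑' q, c q + lam - g := by rw [hg]; ring
    rw [h12]
    nlinarith
  have h13 : 0 < (F0.card : ℝ) * (bx (a j) L).card := mul_pos hF1' hb1'
  nlinarith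

end main

end Pool.Agent.H410.ME
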